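import Pool.Agent.W829.RP.Defs

/-! A centre of a compact convex set, by the theorem of Helly. -/

set_option autoImplicit false

open MeasureTheory Set Module
open Pool.Agent.W829.RP

namespace Pool.Agent.W440.RP

theorem rad : S_RAD := by
  intro V _ _ _ B hB hBc hBn hD
  have hD0 : (0 : ℝ) < (finrank ℝ V : ℝ) := by exact_mod_cast hD
  set D : ℝ := (finrank ℝ V : ℝ) with hDdef
  have hkey : (⋂ x : B, {b : V | b ∈ B ∧ b + D⁻¹ • (b - (x : V)) ∈ B}).Nonempty := by
    apply Convex.helly_theorem_compact' (𝕜 := ℝ)
    · rintro ⟨x, hx⟩ b hb c hc s t hs ht hst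
      refine ⟨hB hb.1 hc.1 hs ht hst, ?_⟩
      have h := hB hb.2 hc.2 hs ht hst
      have he : s • (b + D⁻¹ • (b - x)) + t • (c + D⁻¹ • (c - x)) =
          s • b + t • c + D⁻¹ • (s • b + t • c - x) := by
        have h1 : t = 1 - s := by linarith
        subst h1
        module
      simpa only [he] using h
    · rintro ⟨x, hx⟩
      have hcl : IsClosed {b : V | b + D⁻¹ • (b - x) ∈ B} :=
        hBc.isClosed.preimage (by fun_prop)
      exact hBc.inter_right hcl
    · intro I hI
      rcases I.eq_empty_or_nonempty with rfl | hne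
      · obtain ⟨b, hb⟩ := hBn
        exact ⟨b, by simp⟩
      · have hm : (0 : ℝ) < I.card := by exact_mod_cast hne.card_pos
        have hm' : (I.card : ℝ) ≤ D + 1 := by rw [hDdef]; exact_mod_cast hI
        refine ⟨∑ x ∈ I, ((I.card : ℝ)⁻¹) • (x : V), ?_⟩
        simp only [mem_iInter]
        intro x hx
        constructor
        · refine hB.sum_mem (fun _ _ => (inv_pos.mpr hm).le) ?_ fun i _ => i.2
          rw [Finset.sum_const, nsmul_eq_mul]
          exact mul_inv_cancel₀ hm.ne'
        · classical
          have hw : ∑ j ∈ I, ((1 + D⁻¹) * (I.card : ℝ)⁻¹ - if j = x then D⁻¹ else 0) • (j : V) ∈ B := by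
            refine hB.sum_mem ?_ ?_ fun i _ => i.2
            · intro j _
              have h1 : 1 ≤ (D + 1) * (I.card : ℝ)⁻¹ := by
                rw [← div_eq_mul_inv, le_div_iff₀ hm]; linarith
              have h2 : (1 + D⁻¹) * (I.card : ℝ)⁻¹ = D⁻¹ * ((D + 1) * (I.card : ℝ)⁻¹) := by
                field_simp
              split_ifs
              · rw [h2]
                nlinarith [inv_pos.mpr hD0]
              · rw [sub_zero]; positivity
            · rw [Finset.sum_sub_distrib, Finset.sum_const, nsmul_eq_mul, Finset.sum_ite_eq' I x]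
              rw [if_pos hx]
              field_simp
              ring
          have he : ∑ j ∈ I, ((1 + D⁻¹) * (I.card : ℝ)⁻¹ - if j = x then D⁻¹ else 0) • (j : V) =
              ∑ y ∈ I, ((I.card : ℝ)⁻¹) • (y : V) +
                D⁻¹ • (∑ y ∈ I, ((I.card : ℝ)⁻¹) • (y : V) - (x : V)) := by
            have h1 : ∑ j ∈ I, (if j = x then D⁻¹ else 0) • (j : V) = D⁻¹ • (x : V) := by
              simp only [ite_smul, zero_smul]
              rw [Finset.sum_ite_eq' I x, if_pos hx]
            simp only [sub_smul, mul_smul, add_smul, one_smul]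
            rw [Finset.sum_sub_distrib, h1, Finset.sum_add_distrib, smul_sub,
              Finset.smul_sum (s := I) (r := D⁻¹)]
            abel
          rw [he] at hw
          exact hw
  obtain ⟨b, hb⟩ := hkey
  simp only [mem_iInter] at hb
  obtain ⟨b0, hb0⟩ := hBn
  exact ⟨b, (hb ⟨b0, hb0⟩).1, fun x hx => (hb ⟨x, hx⟩).2⟩

end Pool.Agent.W440.RP
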